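import Pool.Agent.G9.Stmts

/-! Squad GNI, row NRD. -/

set_option autoImplicit false

namespace Pool.Agent.G9.H57

open Finset Pool.Agent.G9

section

variable {F : Type} [Field F]

theorem isSquare_map_iff' (σ : F ≃+* F) (a : F) : IsSquare (σ a) ↔ IsSquare a := by
  constructor
  · rintro ⟨r, hr⟩
    refine ⟨σ.symm r, ?_⟩
    rw [← map_mul, ← hr, σ.symm_apply_apply]
  · rintro ⟨r, rfl⟩
    exact ⟨σ r, map_mul σ r r⟩

theorem qc_map [Fintype F] [DecidableEq F] (σ : F ≃+* F) (a : F) : quadraticChar F (σ a) = quadraticChar F a := by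
  rw [quadraticChar_apply, quadraticChar_apply]
  unfold quadraticCharFun
  have h0 : σ a = 0 ↔ a = 0 := map_eq_zero_iff σ σ.injective
  simp only [h0, isSquare_map_iff' σ a]

theorem psi_sub [Finite F] (ψ : AddChar F ℂ) (a b : F) :
    ψ (a - b) = ψ a * (starRingEnd ℂ) (ψ b) := by
  rw [sub_eq_add_neg, AddChar.map_add_eq_mul, AddChar.map_neg_eq_conj]

theorem qc_norm_le [Fintype F] [DecidableEq F] (a : F) : ‖((quadraticChar F a : ℤ) : ℂ)‖ ≤ 1 := by
  rcases quadraticChar_isQuadratic F a with h | h | h <;> rw [h] <;> simp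

theorem cs_bound {F : Type} [Fintype F] (h g : F → ℂ) :
    ‖∑ y, h y * g y‖ ^ 2 ≤ (∑ y, ‖h y‖ ^ 2) * (∑ y, ‖g y‖ ^ 2) := by
  have h1 : ‖∑ y, h y * g y‖ ≤ ∑ y, ‖h y‖ * ‖g y‖ := by
    refine (norm_sum_le _ _).trans (le_of_eq ?_)
    exact Finset.sum_congr rfl fun y _ => norm_mul _ _
  calc ‖∑ y, h y * g y‖ ^ 2 ≤ (∑ y, ‖h y‖ * ‖g y‖) ^ 2 :=
        pow_le_pow_left₀ (norm_nonneg _) h1 2
    _ ≤ _ := Finset.sum_mul_sq_le_sq_mul_sq _ _ _

/-- the square of the norm of a sum -/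
theorem norm_expand {F : Type} [Fintype F] (a : F → F → ℂ) (f : F → ℂ) :
    ((∑ y, ‖∑ x, a x y * f x‖ ^ 2 : ℝ) : ℂ) =
      ∑ x, ∑ x', (∑ y, a x y * (starRingEnd ℂ) (a x' y)) * (f x * (starRingEnd ℂ) (f x')) := by
  have h1 : ∀ y, ((‖∑ x, a x y * f x‖ ^ 2 : ℝ) : ℂ) =
      ∑ x, ∑ x', (a x y * (starRingEnd ℂ) (a x' y)) * (f x * (starRingEnd ℂ) (f x')) := by
    intro y
    have h2 : ((‖∑ x, a x y * f x‖ ^ 2 : ℝ) : ℂ) =
        (∑ x, a x y * f x) * (starRingEnd ℂ) (∑ x, a x y * f x) := by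
      rw [Complex.mul_conj']
      push_cast
      rfl
    rw [h2, map_sum, Finset.sum_mul_sum]
    refine Finset.sum_congr rfl fun x _ => Finset.sum_congr rfl fun x' _ => ?_
    rw [map_mul]
    ring
  rw [Complex.ofReal_sum]
  rw [Finset.sum_congr rfl fun y _ => h1 y, Finset.sum_comm]
  refine Finset.sum_congr rfl fun x _ => ?_
  rw [Finset.sum_comm]
  refine Finset.sum_congr rfl fun x' _ => ?_
  rw [Finset.sum_mul]

end

theorem nrd (gau : GauStmt) (ker : KerStmt) : NrdStmt := by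
  intro F _ _ _ _ σ ψ hσ hψ hψσ hq4 β γ δ ε hδ f g
  obtain ⟨G, hG, hG2⟩ := gau F ψ hψ
  -- notation
  obtain ⟨Φ, hΦ⟩ : ∃ Φ : F → F → F, Φ = fun x y => β * (σ x * y) + γ * (x * σ y) +
    δ * (σ x * y ^ 2) + ε * (x ^ 2 * σ y) := ⟨_, rfl⟩
  obtain ⟨κ, hκ⟩ : ∃ κ : F, κ = -σ (1 / δ) := ⟨_, rfl⟩
  obtain ⟨φ, hφ⟩ : ∃ φ : F → F, φ = fun x => -(β ^ 2 / δ) * σ x -
    (2 * β / δ) * σ.symm (γ * x + ε * x ^ 2) := ⟨_, rfl⟩
  have hτ : ∀ c y : F, ψ (c * σ y) = ψ (σ.symm c * y) := by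
    intro c y
    rw [← hψσ (σ.symm c * y), map_mul σ, σ.apply_symm_apply]
  -- the inner sum
  have hM : ∀ x x' : F, ∑ y, ψ (Φ x y) * (starRingEnd ℂ) (ψ (Φ x' y)) =
      (if x = x' then (Fintype.card F : ℂ) else 0) +
      ((quadraticChar F δ : ℤ) : ℂ) * G *
        (((quadraticChar F (x - x') : ℤ) : ℂ) * ψ (κ * (γ + ε * (x + x')) ^ 2 / (x - x')) *
          (ψ (φ x) * (starRingEnd ℂ) (ψ (φ x')))) := by
    intro x x'
    by_cases hx : x = x'
    · subst hx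
      rw [if_pos rfl, sub_self, MulChar.map_zero]
      have : ∀ y, ψ (Φ x y) * (starRingEnd ℂ) (ψ (Φ x y)) = 1 := by
        intro y
        rw [← psi_sub, sub_self, AddChar.map_zero_eq_one]
      rw [Finset.sum_congr rfl fun y _ => this y]
      simp
    · rw [if_neg hx, zero_add]
      have hD : x - x' ≠ 0 := sub_ne_zero.2 hx
      have hσD : σ (x - x') ≠ 0 := (map_ne_zero_iff σ σ.injective).2 hD
      obtain ⟨A, hA⟩ : ∃ A, A = δ * σ (x - x') := ⟨_, rfl⟩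
      obtain ⟨c, hc⟩ : ∃ c, c = γ * (x - x') + ε * (x ^ 2 - x' ^ 2) := ⟨_, rfl⟩
      obtain ⟨Lc, hL⟩ : ∃ Lc, Lc = β * σ (x - x') + σ.symm c := ⟨_, rfl⟩
      have hA0 : A ≠ 0 := by rw [hA]; exact mul_ne_zero hδ hσD
      have h1 : ∀ y, ψ (Φ x y) * (starRingEnd ℂ) (ψ (Φ x' y)) = ψ (A * y ^ 2 + Lc * y) := by
        intro y
        rw [← psi_sub]
        have e1 : Φ x y - Φ x' y = (A * y ^ 2 + β * σ (x - x') * y) + c * σ y := by
          rw [hΦ, hA, hc, map_sub]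
          ring
        have e2 : A * y ^ 2 + Lc * y = (A * y ^ 2 + β * σ (x - x') * y) + σ.symm c * y := by
          rw [hL]
          ring
        rw [e1, e2, AddChar.map_add_eq_mul, AddChar.map_add_eq_mul ψ _ (σ.symm c * y), hτ]
      rw [Finset.sum_congr rfl fun y _ => h1 y, hG2 A Lc hA0]
      -- the quadratic character
      have h2 : quadraticChar F A = quadraticChar F δ * quadraticChar F (x - x') := by
        rw [hA, map_mul, qc_map]
      -- the phase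
      have h3 : -(Lc ^ 2 / A) = (φ x - φ x') + -(1 / δ) *
          σ.symm ((γ + ε * (x + x')) ^ 2 / (x - x')) := by
        have e0 : σ (x - x') = σ.symm ((x - x') ^ 3) := by
          rw [← hσ, σ.symm_apply_apply]
        have e1 : σ.symm c = σ.symm (x - x') * σ.symm (γ + ε * (x + x')) := by
          rw [← map_mul, hc]
          congr 1
          ring
        have e2 : φ x - φ x' = -(β ^ 2 / δ) * σ (x - x') - (2 * β / δ) * σ.symm c := by
          have e3 : σ.symm c = σ.symm (γ * x + ε * x ^ 2) - σ.symm (γ * x' + ε * x' ^ 2) := by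
            rw [← map_sub, hc]
            congr 1
            ring
          rw [hφ, e3, map_sub]
          ring
        have hτD : σ.symm (x - x') ≠ 0 := (map_ne_zero_iff σ.symm σ.symm.injective).2 hD
        have e4 : σ.symm ((γ + ε * (x + x')) ^ 2 / (x - x')) =
            σ.symm (γ + ε * (x + x')) ^ 2 / σ.symm (x - x') := by
          rw [map_div₀, map_pow]
        have e5 : σ (x - x') = σ.symm (x - x') ^ 3 := by rw [e0, map_pow]
        rw [e2, e4, hL, hA, e1, e5]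
        generalize σ.symm (x - x') = d at hτD
        generalize σ.symm (γ + ε * (x + x')) = w
        field_simp
        ring
      have h4 : ψ (-(1 / δ) * σ.symm ((γ + ε * (x + x')) ^ 2 / (x - x'))) =
          ψ (κ * (γ + ε * (x + x')) ^ 2 / (x - x')) := by
        rw [← hψσ (-(1 / δ) * σ.symm ((γ + ε * (x + x')) ^ 2 / (x - x'))), map_mul σ,
          σ.apply_symm_apply, map_neg σ, hκ, mul_div_assoc]
      rw [h3, AddChar.map_add_eq_mul, h4, psi_sub, h2]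
      push_cast
      ring
  -- the two parts
  have hS : ∑ x, ∑ y, ψ (β * (σ x * y) + γ * (x * σ y) + δ * (σ x * y ^ 2) +
      ε * (x ^ 2 * σ y)) * (f x * g y) = ∑ y, (∑ x, ψ (Φ x y) * f x) * g y := by
    rw [Finset.sum_comm]
    refine Finset.sum_congr rfl fun y _ => ?_
    rw [Finset.sum_mul]
    refine Finset.sum_congr rfl fun x _ => ?_
    rw [hΦ]
    ring
  have hexp := norm_expand (fun x y => ψ (Φ x y)) f
  have hsum : ((∑ y, ‖∑ x, ψ (Φ x y) * f x‖ ^ 2 : ℝ) : ℂ) =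
      (Fintype.card F : ℂ) * ((∑ x, ‖f x‖ ^ 2 : ℝ) : ℂ) +
      ((quadraticChar F δ : ℤ) : ℂ) * G *
        ∑ x, ∑ x', ((quadraticChar F (x - x') : ℤ) : ℂ) *
          ψ (κ * (γ + ε * (x + x')) ^ 2 / (x - x')) *
          ((fun x => f x * ψ (φ x)) x * (fun x => (starRingEnd ℂ) (f x * ψ (φ x))) x') := by
    rw [hexp]
    have e1 : ∀ x, ∑ x', (∑ y, ψ (Φ x y) * (starRingEnd ℂ) (ψ (Φ x' y))) *
        (f x * (starRingEnd ℂ) (f x')) = (Fintype.card F : ℂ) * ((‖f x‖ ^ 2 : ℝ) : ℂ) +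
        ((quadraticChar F δ : ℤ) : ℂ) * G *
        ∑ x', ((quadraticChar F (x - x') : ℤ) : ℂ) *
          ψ (κ * (γ + ε * (x + x')) ^ 2 / (x - x')) *
          ((fun x => f x * ψ (φ x)) x * (fun x => (starRingEnd ℂ) (f x * ψ (φ x))) x') := by
      intro x
      have e2 : ∀ x', (∑ y, ψ (Φ x y) * (starRingEnd ℂ) (ψ (Φ x' y))) *
          (f x * (starRingEnd ℂ) (f x')) =
          (if x = x' then (Fintype.card F : ℂ) * (f x * (starRingEnd ℂ) (f x')) else 0) +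
          ((quadraticChar F δ : ℤ) : ℂ) * G * (((quadraticChar F (x - x') : ℤ) : ℂ) *
          ψ (κ * (γ + ε * (x + x')) ^ 2 / (x - x')) *
          ((fun x => f x * ψ (φ x)) x * (fun x => (starRingEnd ℂ) (f x * ψ (φ x))) x')) := by
        intro x'
        rw [hM x x']
        simp only [map_mul]
        split_ifs <;> ring
      rw [Finset.sum_congr rfl fun x' _ => e2 x', Finset.sum_add_distrib, Finset.sum_ite_eq,
        if_pos (Finset.mem_univ x), ← Finset.mul_sum, Complex.mul_conj']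
      push_cast
      rfl
    rw [Finset.sum_congr rfl fun x _ => e1 x, Finset.sum_add_distrib, ← Finset.mul_sum,
      ← Finset.mul_sum, Complex.ofReal_sum]
  have hker := ker F ψ hψ hq4 κ γ ε (fun x => f x * ψ (φ x))
    (fun x => (starRingEnd ℂ) (f x * ψ (φ x)))
  have hn1 : ∀ x, ‖f x * ψ (φ x)‖ ^ 2 = ‖f x‖ ^ 2 := by
    intro x
    rw [norm_mul, AddChar.norm_apply, mul_one]
  have hn2 : ∀ x, ‖(starRingEnd ℂ) (f x * ψ (φ x))‖ ^ 2 = ‖f x‖ ^ 2 := by
    intro x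
    rw [RCLike.norm_conj, hn1]
  rw [Finset.sum_congr rfl fun x _ => hn1 x, Finset.sum_congr rfl fun x _ => hn2 x] at hker
  have hF0 : 0 ≤ ∑ x, ‖f x‖ ^ 2 := Finset.sum_nonneg fun x _ => by positivity
  have hg0 : 0 ≤ ∑ x, ‖g x‖ ^ 2 := Finset.sum_nonneg fun x _ => by positivity
  rw [Real.mul_self_sqrt hF0] at hker
  have hq0 : (0 : ℝ) ≤ Fintype.card F := Nat.cast_nonneg _
  have hGn : ‖G‖ = Real.sqrt (Fintype.card F) := by
    rw [← hG, Real.sqrt_sq (norm_nonneg _)]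
  have hbound : ∑ y, ‖∑ x, ψ (Φ x y) * f x‖ ^ 2 ≤ 6 * Fintype.card F * ∑ x, ‖f x‖ ^ 2 := by
    have h1 : 0 ≤ ∑ y, ‖∑ x, ψ (Φ x y) * f x‖ ^ 2 :=
      Finset.sum_nonneg fun y _ => by positivity
    have h2 : ∑ y, ‖∑ x, ψ (Φ x y) * f x‖ ^ 2 =
        ‖((∑ y, ‖∑ x, ψ (Φ x y) * f x‖ ^ 2 : ℝ) : ℂ)‖ := by
      rw [Complex.norm_real, Real.norm_of_nonneg h1]
    rw [h2, hsum]
    refine (norm_add_le _ _).trans ?_
    have h3 : ‖(Fintype.card F : ℂ) * ((∑ x, ‖f x‖ ^ 2 : ℝ) : ℂ)‖ =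
        Fintype.card F * ∑ x, ‖f x‖ ^ 2 := by
      rw [norm_mul, Complex.norm_real, Real.norm_of_nonneg hF0, Complex.norm_natCast]
    have h4 : ‖((quadraticChar F δ : ℤ) : ℂ) * G *
        ∑ x, ∑ x', ((quadraticChar F (x - x') : ℤ) : ℂ) *
          ψ (κ * (γ + ε * (x + x')) ^ 2 / (x - x')) *
          ((fun x => f x * ψ (φ x)) x * (fun x => (starRingEnd ℂ) (f x * ψ (φ x))) x')‖ ≤
        5 * Fintype.card F * ∑ x, ‖f x‖ ^ 2 := by
      rw [norm_mul, norm_mul, hGn]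
      calc _ ≤ 1 * Real.sqrt (Fintype.card F) *
            (5 * Real.sqrt (Fintype.card F) * ∑ x, ‖f x‖ ^ 2) := by
            refine mul_le_mul ?_ hker (norm_nonneg _) (by positivity)
            exact mul_le_mul_of_nonneg_right (qc_norm_le δ) (Real.sqrt_nonneg _)
        _ = 5 * (Real.sqrt (Fintype.card F) * Real.sqrt (Fintype.card F)) *
            ∑ x, ‖f x‖ ^ 2 := by ring
        _ = _ := by rw [Real.mul_self_sqrt hq0]
    rw [h3]
    linarith
  rw [hS]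
  refine (cs_bound (fun y => ∑ x, ψ (Φ x y) * f x) g).trans ?_
  calc (∑ y, ‖∑ x, ψ (Φ x y) * f x‖ ^ 2) * (∑ y, ‖g y‖ ^ 2)
      ≤ (6 * Fintype.card F * ∑ x, ‖f x‖ ^ 2) * (∑ y, ‖g y‖ ^ 2) :=
        mul_le_mul_of_nonneg_right hbound hg0
    _ ≤ 16 * Fintype.card F * ((∑ x, ‖f x‖ ^ 2) * (∑ y, ‖g y‖ ^ 2)) := by
        have : 0 ≤ (Fintype.card F : ℝ) * ((∑ x, ‖f x‖ ^ 2) * (∑ y, ‖g y‖ ^ 2)) := by positivity
        nlinarith

end Pool.Agent.G9.H57
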